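import Mathlib
import Pool.Agent.N848.LT.Stm
set_option autoImplicit false
/-!
# LT/HIL: quadratic Hilbert 90
-/

namespace Pool.Agent.N280.LT

open Module

theorem norm_two (K K' : Type) [Field K] [Field K'] [Algebra K K']
    (m : K) (s : K') (hs : s ^ 2 = algebraMap K K' m) (hm : ¬ IsSquare m) (h2 : finrank K K' = 2)
    (f : K') : ∃ α β : K, f = algebraMap K K' α + algebraMap K K' β * s ∧
      Algebra.norm K f = α ^ 2 - m * β ^ 2 := by
  have hinj : Function.Injective (algebraMap K K') := (algebraMap K K').injective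
  have hli : LinearIndependent K ![(1 : K'), s] := by
    rw [LinearIndependent.pair_iff]
    intro a b hab
    rw [Algebra.smul_def, Algebra.smul_def, mul_one] at hab
    have hb : b = 0 := by
      by_contra hb
      apply hm
      refine ⟨-a / b, ?_⟩
      apply hinj
      have hb' : algebraMap K K' b ≠ 0 := by
        intro h
        exact hb (hinj (by rw [h, map_zero]))
      have hs' : s = algebraMap K K' (-a / b) := by
        rw [map_div₀, map_neg, eq_div_iff hb']
        linear_combination hab
      rw [← hs, hs', map_mul, sq]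
    refine ⟨?_, hb⟩
    rw [hb, map_zero, zero_mul, add_zero] at hab
    exact hinj (by rw [hab, map_zero])
  let b : Basis (Fin 2) K K' := basisOfLinearIndependentOfCardEqFinrank hli (by simp [h2])
  have hb0 : b 0 = 1 := by simp [b]
  have hb1 : b 1 = s := by simp [b]
  refine ⟨b.repr f 0, b.repr f 1, ?_, ?_⟩
  · have := b.sum_repr f
    rw [Fin.sum_univ_two, hb0, hb1, Algebra.smul_def, Algebra.smul_def, mul_one] at this
    exact this.symm
  · obtain ⟨α, hα⟩ : ∃ α, α = b.repr f 0 := ⟨_, rfl⟩
    obtain ⟨β, hβ⟩ : ∃ β, β = b.repr f 1 := ⟨_, rfl⟩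
    have hf : f = α • b 0 + β • b 1 := by
      have := b.sum_repr f
      rw [Fin.sum_univ_two, ← hα, ← hβ] at this
      exact this.symm
    have e0 : f * b 0 = α • b 0 + β • b 1 := by rw [hb0, mul_one, ← hb0]; exact hf
    have e1 : f * b 1 = (m * β) • b 0 + α • b 1 := by
      rw [hf, hb0, hb1, Algebra.smul_def, Algebra.smul_def, Algebra.smul_def, Algebra.smul_def,
        map_mul]
      linear_combination (algebraMap K K' β) * hs
    rw [Algebra.norm_eq_matrix_det b, Matrix.det_fin_two]
    simp only [Algebra.leftMulMatrix_eq_repr_mul, e0, e1, map_add, map_smul, Basis.repr_self,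
      Finsupp.add_apply, Finsupp.smul_apply, smul_eq_mul]
    simp
    rw [← hα, ← hβ]
    ring

theorem hil (K K' : Type) [Field K] [CharZero K] [Field K'] [Algebra K K']
    (m : K) (s : K') (hs : s ^ 2 = algebraMap K K' m) (hm : ¬ IsSquare m) (h2 : finrank K K' = 2)
    (f : K') (c : K) (hf : f ≠ 0) (hn : Algebra.norm K f = c ^ 2) :
    ∃ (b : K) (h : K'), h ≠ 0 ∧ f = algebraMap K K' b * h ^ 2 := by
  obtain ⟨α, β, hf1, hf2⟩ := norm_two K K' m s hs hm h2 f
  rw [hf2] at hn
  have key : ∀ d : K, d ^ 2 = c ^ 2 → α + d ≠ 0 →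
      ∃ (b : K) (h : K'), h ≠ 0 ∧ f = algebraMap K K' b * h ^ 2 := by
    intro d hd hne
    have h1 : (f + algebraMap K K' d) ^ 2 = algebraMap K K' (2 * (α + d)) * f := by
      have e : algebraMap K K' (m * β ^ 2) = algebraMap K K' (α ^ 2 - d ^ 2) := by
        congr 1
        rw [hd]
        linear_combination -hn
      rw [map_mul, map_pow, map_sub, map_pow, map_pow] at e
      rw [map_mul, map_add, hf1, map_ofNat]
      linear_combination (algebraMap K K' β) ^ 2 * hs + e
    have hne' : algebraMap K K' (2 * (α + d)) ≠ 0 := by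
      rw [Ne, map_eq_zero]
      exact mul_ne_zero two_ne_zero hne
    refine ⟨(2 * (α + d))⁻¹, f + algebraMap K K' d, ?_, ?_⟩
    · intro h0
      rw [h0] at h1
      exact mul_ne_zero hne' hf (by rw [← h1]; ring)
    · rw [h1, map_inv₀, ← mul_assoc, inv_mul_cancel₀ hne', one_mul]
  by_cases h : α + c = 0
  · by_cases h' : α + -c = 0
    · exfalso
      have hα : α = 0 := by
        have : (2 : K) * α = 0 := by linear_combination h + h'
        exact (mul_eq_zero.1 this).resolve_left two_ne_zero
      have hc : c = 0 := by rw [hα, zero_add] at h; exact h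
      rw [hα, hc] at hn
      have hmb : m * β ^ 2 = 0 := by linear_combination -hn
      have hm0 : m ≠ 0 := by
        intro hm0
        exact hm ⟨0, by rw [hm0, mul_zero]⟩
      have hβ : β = 0 := by
        rcases mul_eq_zero.1 hmb with h | h
        · exact absurd h hm0
        · exact pow_eq_zero_iff (two_ne_zero) |>.1 h
      apply hf
      rw [hf1, hα, hβ, map_zero, zero_mul, add_zero]
    · exact key (-c) (by ring) h'
  · exact key c rfl h

theorem t_HIL : Pool.Agent.N848.LT.S_HIL := by
  intro K K' _ _ _ _ m s hs hm h2 f c hf hn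
  exact hil K K' m s hs hm h2 f c hf hn

end Pool.Agent.N280.LT
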